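import Pool.Agent.T2h19.AP.Stm

/-!
# The Picard number (task `PIC` of the project `AP`)
-/

set_option autoImplicit false

open MvPolynomial

namespace Pool.Agent.T2h34.AP

open Pool.Agent.T2h19.AP

variable {ι : Type} [Fintype ι] [DecidableEq ι]

/-- The substitution of a linear map as a ring homomorphism. -/
noncomputable def sh (w : (ι → ℂ) →ₗ[ℂ] (ι → ℂ)) : MvPolynomial ι ℂ →+* MvPolynomial ι ℂ :=
  (aeval (R := ℂ) (fun i => form (LinearMap.proj i ∘ₗ w))).toRingHom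

theorem sh_apply (w : (ι → ℂ) →ₗ[ℂ] (ι → ℂ)) (F : MvPolynomial ι ℂ) : sh w F = subst w F := rfl

/-- The transport of an ideal by a linear automorphism. -/
noncomputable def tw (w : (ι → ℂ) ≃ₗ[ℂ] (ι → ℂ)) (P : Ideal (MvPolynomial ι ℂ)) :
    Ideal (MvPolynomial ι ℂ) := Ideal.comap (sh w.symm.toLinearMap) P

theorem mem_tw {w : (ι → ℂ) ≃ₗ[ℂ] (ι → ℂ)} {P : Ideal (MvPolynomial ι ℂ)}
    {F : MvPolynomial ι ℂ} : F ∈ tw w P ↔ subst w.symm.toLinearMap F ∈ P := Iff.rfl

theorem subst_symm_subst (w : (ι → ℂ) ≃ₗ[ℂ] (ι → ℂ)) (F : MvPolynomial ι ℂ) :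
    subst w.symm.toLinearMap (subst w.toLinearMap F) = F := by
  apply MvPolynomial.funext
  intro z
  rw [eval_subst, eval_subst]
  simp

theorem homogeneousComponent_subst (w : (ι → ℂ) →ₗ[ℂ] (ι → ℂ)) (F : MvPolynomial ι ℂ) (n : ℕ) :
    homogeneousComponent n (subst w F) = subst w (homogeneousComponent n F) := by
  conv_lhs => rw [← sum_homogeneousComponent F]
  rw [← sh_apply, map_sum, map_sum]
  have h : ∀ i ∈ Finset.range (F.totalDegree + 1),
      homogeneousComponent n (sh w (homogeneousComponent i F)) =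
        if i = n then subst w (homogeneousComponent n F) else 0 := by
    intro i _
    rw [sh_apply]
    have h1 : subst w (homogeneousComponent i F) ∈ homogeneousSubmodule ι ℂ i :=
      subst_hom w (homogeneousComponent_isHomogeneous i F)
    rw [homogeneousComponent_of_mem h1]
    by_cases hin : i = n
    · subst hin
      simp
    · rw [if_neg (fun h => hin h.symm), if_neg hin]
  rw [Finset.sum_congr rfl h, Finset.sum_ite_eq']
  split_ifs with hn
  · rfl
  · have h2 : homogeneousComponent n F = 0 := by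
      apply homogeneousComponent_eq_zero
      simpa using hn
    rw [h2, ← sh_apply, map_zero]

theorem on_tw (w : (ι → ℂ) ≃ₗ[ℂ] (ι → ℂ)) (P : Ideal (MvPolynomial ι ℂ)) (z : ι → ℂ) :
    On (tw w P) z ↔ On P (w z) := by
  constructor
  · rintro ⟨h0, h⟩
    refine ⟨fun h1 => h0 ?_, fun G hG => ?_⟩
    · simpa using h1
    · have h2 : subst w.toLinearMap G ∈ tw w P := by
        rw [mem_tw, subst_symm_subst]
        exact hG
      have h3 := h _ h2
      rw [eval_subst] at h3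
      exact h3
  · rintro ⟨h0, h⟩
    refine ⟨fun h1 => h0 ?_, fun F hF => ?_⟩
    · simp [h1]
    · have h3 := h _ hF
      have h4 : eval (w z) ((sh w.symm.toLinearMap) F) = eval z F := by
        rw [sh_apply, eval_subst]
        simp
      rw [h4] at h3
      exact h3

theorem tw_tw (w : (ι → ℂ) ≃ₗ[ℂ] (ι → ℂ)) (P : Ideal (MvPolynomial ι ℂ)) :
    tw w.symm (tw w P) = P := by
  ext F
  rw [mem_tw, mem_tw, LinearEquiv.symm_symm, subst_symm_subst]

theorem tw_tw' (w : (ι → ℂ) ≃ₗ[ℂ] (ι → ℂ)) (P : Ideal (MvPolynomial ι ℂ)) :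
    tw w (tw w.symm P) = P := by
  have := tw_tw w.symm P
  rwa [LinearEquiv.symm_symm] at this

theorem tw_mono (w : (ι → ℂ) ≃ₗ[ℂ] (ι → ℂ)) {P Q : Ideal (MvPolynomial ι ℂ)} (h : P ≤ Q) :
    tw w P ≤ tw w Q := Ideal.comap_mono h

theorem tw_ideal {K : Cells ι} (hK : K.Cov) {w : (ι → ℂ) ≃ₗ[ℂ] (ι → ℂ)} (hw : w ∈ K.W) :
    tw w (ideal K.C) = ideal K.C := by
  ext F
  rw [mem_tw, mem_ideal, mem_ideal]
  constructor
  · intro h z hz
    have h1 := h (w z) ((hK.mem_iff w hw z).2 hz)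
    rw [eval_subst] at h1
    simpa using h1
  · intro h z hz
    rw [eval_subst]
    exact h _ (Cells.symm_mem hK hw hz)

theorem isVariety_tw (w : (ι → ℂ) ≃ₗ[ℂ] (ι → ℂ)) {P : Ideal (MvPolynomial ι ℂ)}
    (h : IsVariety P) : IsVariety (tw w P) := by
  refine ⟨?_, ?_, ?_⟩
  · have := h.prime
    exact Ideal.IsPrime.comap _
  · intro F hF n
    rw [mem_tw] at hF ⊢
    rw [← homogeneousComponent_subst]
    exact h.homogeneous _ hF n
  · obtain ⟨z, hz⟩ := h.nonempty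
    refine ⟨w.symm z, ?_⟩
    rw [on_tw, LinearEquiv.apply_symm_apply]
    exact hz

theorem isPrimeDivisor_tw {K : Cells ι} (hK : K.Cov) {w : (ι → ℂ) ≃ₗ[ℂ] (ι → ℂ)} (hw : w ∈ K.W)
    {P : Ideal (MvPolynomial ι ℂ)} (h : IsPrimeDivisor (ideal K.C) P) :
    IsPrimeDivisor (ideal K.C) (tw w P) := by
  obtain ⟨h1, h2, h3⟩ := h
  have hI := tw_ideal hK hw
  have hI' : tw w.symm (ideal K.C) = ideal K.C := by
    conv_lhs => rw [← hI]
    exact tw_tw w _
  refine ⟨isVariety_tw w h1, ?_, ?_⟩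
  · refine lt_of_le_of_ne ?_ ?_
    · rw [← hI]
      exact tw_mono w h2.le
    · intro he
      apply h2.ne
      rw [← tw_tw w P, ← he, hI']
  · intro Q hQ hIQ hQP
    have h4 := h3 (tw w.symm Q) (isVariety_tw w.symm hQ)
      (by rw [← hI']; exact tw_mono w.symm hIQ)
      (by rw [← tw_tw w P]; exact tw_mono w.symm hQP)
    rcases h4 with h4 | h4
    · left
      rw [← tw_tw' w Q, h4, hI]
    · right
      rw [← tw_tw' w Q, h4]

theorem isSection_comp {K : Cells ι} (hK : K.Cov) {w : (ι → ℂ) ≃ₗ[ℂ] (ι → ℂ)}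
    (hw : w ∈ K.W) {d : ℤ} {s : (ι → ℂ) → ℂ} (hs : IsSection (ideal K.C) d s) :
    IsSection (ideal K.C) d (fun z => s (w.symm z)) := by
  have hon : ∀ z, On (ideal K.C) z → On (ideal K.C) (w.symm z) := by
    intro z hz
    rw [← tw_ideal hK hw, on_tw, LinearEquiv.apply_symm_apply]
    exact hz
  refine ⟨?_, ?_⟩
  · intro z hz t ht
    show s (w.symm (t • z)) = _
    rw [map_smul]
    exact hs.1 _ (hon z hz) t ht
  · intro z₀ hz₀
    obtain ⟨a, b, ha, hab⟩ := hs.2 _ (hon z₀ hz₀)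
    refine ⟨subst w.symm.toLinearMap a, subst w.symm.toLinearMap b, ?_, ?_⟩
    · rw [eval_subst]
      exact ha
    · intro z hz
      rw [eval_subst, eval_subst]
      exact hab _ (hon z hz)

/-- PIC. -/
theorem pic_ (h1 : S_VAR) (h2 : S_PRD) (h3 : S_SEC) (h4 : S_SCT) (h5 : S_ZRA) (h6 : S_ZRB) :
    S_PIC := by
  intro ι _ _ K hK hN P hP
  obtain ⟨z, hz⟩ := hP.1.nonempty
  have hle : ideal K.C ≤ P := hP.2.1.le
  have hzI : On (ideal K.C) z := ⟨hz.1, fun F hF => hz.2 F (hle hF)⟩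
  have hzC := ((h1 ι K hK).2 z).1 hzI
  obtain ⟨w, hw, t, u, ht, rfl⟩ := hK.cover z hzC.1 hzC.2
  have hP' := isPrimeDivisor_tw hK hw hP
  have hle' : ideal K.C ≤ tw w P := hP'.2.1.le
  obtain ⟨f, hf, _, hfP⟩ := h2 ι K hK (tw w P) hP'
    ⟨t • K.pt u, (on_tw w P _).2 hz, by rw [Cells.L_zero_smul hK]; exact ht⟩
  obtain ⟨d, s, g, hreg, hnd, hsf⟩ := h3 ι K hK hN f hf.ne_zero
  refine ⟨d, fun z => s (w.symm z), isSection_comp hK hw (h4 ι K hK d s g hreg), ?_⟩
  intro z hz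
  have hz' := ((h1 ι K hK).2 z).1 hz
  have key : ∀ y, y ∈ K.C → y ≠ 0 → (s y = 0 ↔ On (tw w P) y) := by
    intro y hy hy0
    constructor
    · exact h6 ι K hK hN (tw w P) f d s g hfP hreg hnd hsf y hy hy0
    · exact h5 ι K hK hN (tw w P) f d s g hle' hfP hreg hsf y
  have h7 := key (w.symm z) (Cells.symm_mem hK hw hz'.1) (by
    intro h0
    apply hz'.2
    simpa using h0)
  show s (w.symm z) = 0 ↔ On P z
  rw [h7, on_tw, LinearEquiv.apply_symm_apply]

end Pool.Agent.T2h34.AP
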